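import Mathlib

/-!
A continuous linear functional on `C(K,E)` (`K` compact Hausdorff, `E` a normed space) is
dominated by a finite regular Borel measure, and a continuous linear functional on `C(K,ℝ)` is
the difference of two such measures.
-/

namespace Pool.Agent.R884.AffB

open MeasureTheory Set Filter Topology
open scoped NNReal ENNReal CompactlySupported

variable {K : Type*} [TopologicalSpace K] [CompactSpace K] [T2Space K]
variable {E : Type*} [NormedAddCommGroup E] [NormedSpace ℝ E]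

/-- the values `Λ g` with `‖g‖ ≤ φ` pointwise -/
def domSet (Λ : C(K, E) →L[ℝ] ℝ) (φ : K → ℝ≥0) : Set ℝ :=
  {t | ∃ g : C(K, E), (∀ x, ‖g x‖ ≤ φ x) ∧ Λ g = t}

lemma domSet_bdd (Λ : C(K, E) →L[ℝ] ℝ) {φ : K → ℝ≥0} (hφ : Continuous φ) :
    BddAbove (domSet Λ φ) := by
  obtain ⟨C, hC⟩ : ∃ C : ℝ≥0, ∀ x, φ x ≤ C := by
    obtain ⟨C, hC⟩ := (isCompact_range hφ).bddAbove
    exact ⟨C, fun x => hC ⟨x, rfl⟩⟩
  refine ⟨‖Λ‖ * C, ?_⟩
  rintro _ ⟨g, hg, rfl⟩
  have h1 : ‖g‖ ≤ C := (ContinuousMap.norm_le g C.2).2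
    (fun x => (hg x).trans (by exact_mod_cast hC x))
  calc Λ g ≤ ‖Λ g‖ := le_abs_self _
    _ ≤ ‖Λ‖ * ‖g‖ := Λ.le_opNorm g
    _ ≤ ‖Λ‖ * C := by gcongr

lemma zero_mem_domSet (Λ : C(K, E) →L[ℝ] ℝ) (φ : K → ℝ≥0) : (0 : ℝ) ∈ domSet Λ φ :=
  ⟨0, fun x => by simp, by simp⟩

/-- the dominating functional -/
noncomputable def dom (Λ : C(K, E) →L[ℝ] ℝ) (φ : K → ℝ≥0) : ℝ := sSup (domSet Λ φ)

lemma le_dom (Λ : C(K, E) →L[ℝ] ℝ) {φ : K → ℝ≥0} (hφ : Continuous φ) {g : C(K, E)}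
    (hg : ∀ x, ‖g x‖ ≤ φ x) : Λ g ≤ dom Λ φ :=
  le_csSup (domSet_bdd Λ hφ) ⟨g, hg, rfl⟩

lemma dom_nonneg (Λ : C(K, E) →L[ℝ] ℝ) {φ : K → ℝ≥0} (hφ : Continuous φ) : 0 ≤ dom Λ φ :=
  le_csSup (domSet_bdd Λ hφ) (zero_mem_domSet Λ φ)

lemma dom_le (Λ : C(K, E) →L[ℝ] ℝ) {φ : K → ℝ≥0} {c : ℝ}
    (h : ∀ g : C(K, E), (∀ x, ‖g x‖ ≤ φ x) → Λ g ≤ c) : dom Λ φ ≤ c := by
  refine csSup_le ⟨0, zero_mem_domSet Λ φ⟩ ?_
  rintro _ ⟨g, hg, rfl⟩
  exact h g hg

lemma dom_add (Λ : C(K, E) →L[ℝ] ℝ) {φ ψ : K → ℝ≥0} (hφ : Continuous φ) (hψ : Continuous ψ) :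
    dom Λ (fun x => φ x + ψ x) = dom Λ φ + dom Λ ψ := by
  apply le_antisymm
  · apply dom_le
    intro g hg
    refine le_of_forall_pos_le_add ?_
    intro ε hε
    -- choose `η` with `‖Λ‖ * η ≤ ε`
    obtain ⟨η, hη, hηε⟩ : ∃ η : ℝ, 0 < η ∧ ‖Λ‖ * η ≤ ε := by
      refine ⟨ε / (‖Λ‖ + 1), by positivity, ?_⟩
      rw [mul_div_assoc', div_le_iff₀ (by positivity)]
      nlinarith [norm_nonneg Λ]
    set s : K → ℝ := fun x => (φ x : ℝ) + ψ x + η with hs
    have hspos : ∀ x, 0 < s x := fun x => by simp only [hs]; positivity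
    have hscont : Continuous s := by
      simp only [hs]
      exact ((NNReal.continuous_coe.comp hφ).add (NNReal.continuous_coe.comp hψ)).add
        continuous_const
    let g1 : C(K, E) := ⟨fun x => ((φ x : ℝ) / s x) • g x,
      ((NNReal.continuous_coe.comp hφ).div hscont (fun x => (hspos x).ne')).smul g.continuous⟩
    let g2 : C(K, E) := ⟨fun x => ((ψ x : ℝ) / s x) • g x,
      ((NNReal.continuous_coe.comp hψ).div hscont (fun x => (hspos x).ne')).smul g.continuous⟩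
    have hgs : ∀ x, ‖g x‖ ≤ s x := fun x => by
      have := hg x
      simp only [hs]
      push_cast at this
      linarith
    have h1 : ∀ x, ‖g1 x‖ ≤ φ x := fun x => by
      simp only [g1, ContinuousMap.coe_mk, norm_smul, norm_div, NNReal.norm_eq,
        Real.norm_of_nonneg (hspos x).le]
      rw [div_mul_eq_mul_div, div_le_iff₀ (hspos x)]
      exact mul_le_mul_of_nonneg_left (hgs x) (φ x).coe_nonneg
    have h2 : ∀ x, ‖g2 x‖ ≤ ψ x := fun x => by
      simp only [g2, ContinuousMap.coe_mk, norm_smul, norm_div, NNReal.norm_eq,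
        Real.norm_of_nonneg (hspos x).le]
      rw [div_mul_eq_mul_div, div_le_iff₀ (hspos x)]
      exact mul_le_mul_of_nonneg_left (hgs x) (ψ x).coe_nonneg
    have h3 : ‖g - g1 - g2‖ ≤ η := by
      refine (ContinuousMap.norm_le _ hη.le).2 (fun x => ?_)
      have e1 : (g - g1 - g2) x = (η / s x) • g x := by
        simp only [ContinuousMap.sub_apply, g1, g2, ContinuousMap.coe_mk]
        have : (η / s x) = 1 - (φ x : ℝ) / s x - (ψ x : ℝ) / s x := by
          have := (hspos x).ne'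
          field_simp
          simp only [hs]
          ring
        rw [this, sub_smul, sub_smul, one_smul]
      rw [e1, norm_smul, norm_div, Real.norm_of_nonneg (hspos x).le, Real.norm_of_nonneg hη.le,
        div_mul_eq_mul_div, div_le_iff₀ (hspos x)]
      exact mul_le_mul_of_nonneg_left (hgs x) hη.le
    have h4 : Λ g = Λ g1 + Λ g2 + Λ (g - g1 - g2) := by
      simp only [map_sub]; ring
    have h5 : Λ (g - g1 - g2) ≤ ε := calc
      Λ (g - g1 - g2) ≤ ‖Λ (g - g1 - g2)‖ := le_abs_self _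
      _ ≤ ‖Λ‖ * ‖g - g1 - g2‖ := Λ.le_opNorm _
      _ ≤ ‖Λ‖ * η := by gcongr
      _ ≤ ε := hηε
    have := le_dom Λ hφ h1
    have := le_dom Λ hψ h2
    linarith
  · have key : ∀ g1 : C(K, E), (∀ x, ‖g1 x‖ ≤ φ x) → Λ g1 ≤ dom Λ (fun x => φ x + ψ x) - dom Λ ψ := by
      intro g1 h1
      have : dom Λ ψ ≤ dom Λ (fun x => φ x + ψ x) - Λ g1 := by
        apply dom_le
        intro g2 h2
        have : Λ (g1 + g2) ≤ dom Λ (fun x => φ x + ψ x) := by
          apply le_dom Λ (hφ.add hψ)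
          intro x
          calc ‖(g1 + g2) x‖ ≤ ‖g1 x‖ + ‖g2 x‖ := norm_add_le _ _
            _ ≤ φ x + ψ x := add_le_add (h1 x) (h2 x)
            _ = ((φ x + ψ x : ℝ≥0) : ℝ) := by push_cast; ring
        rw [map_add] at this
        linarith
      linarith
    have := dom_le Λ key
    linarith

lemma dom_smul_ge (Λ : C(K, E) →L[ℝ] ℝ) {φ : K → ℝ≥0} (hφ : Continuous φ) (c : ℝ≥0)
    (hc : 0 < c) : (c : ℝ) * dom Λ φ ≤ dom Λ (fun x => c * φ x) := by
  have hc' : (0 : ℝ) < c := by exact_mod_cast hc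
  rw [← le_div_iff₀' hc']
  apply dom_le
  intro g hg
  rw [le_div_iff₀' hc']
  have : Λ ((c : ℝ) • g) ≤ dom Λ (fun x => c * φ x) := by
    apply le_dom Λ (continuous_const.mul hφ)
    intro x
    rw [ContinuousMap.smul_apply, norm_smul, NNReal.norm_eq]
    push_cast
    exact mul_le_mul_of_nonneg_left (hg x) c.coe_nonneg
  rwa [map_smul, smul_eq_mul] at this

lemma dom_smul (Λ : C(K, E) →L[ℝ] ℝ) {φ : K → ℝ≥0} (hφ : Continuous φ) (c : ℝ≥0) :
    dom Λ (fun x => c * φ x) = (c : ℝ) * dom Λ φ := by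
  rcases eq_or_ne c 0 with rfl | hc0
  · simp only [zero_mul, NNReal.coe_zero]
    apply le_antisymm
    · apply dom_le
      intro g hg
      have : g = 0 := by
        ext x
        have := hg x
        simpa using this
      rw [this, map_zero]
    · exact dom_nonneg Λ continuous_const
  · have hc : 0 < c := pos_iff_ne_zero.2 hc0
    apply le_antisymm _ (dom_smul_ge Λ hφ c hc)
    have h := dom_smul_ge Λ (φ := fun x => c * φ x) (continuous_const.mul hφ) c⁻¹ (inv_pos.2 hc)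
    have hc' : (0 : ℝ) < c := by exact_mod_cast hc
    have e : (fun x => c⁻¹ * (c * φ x)) = φ := by
      funext x
      rw [← mul_assoc, inv_mul_cancel₀ hc.ne', one_mul]
    simp only [e] at h
    rw [NNReal.coe_inv, inv_mul_le_iff₀ hc'] at h
    exact h

/-- the dominating functional as a linear map -/
noncomputable def domLin (Λ : C(K, E) →L[ℝ] ℝ) : C_c(K, ℝ≥0) →ₗ[ℝ≥0] ℝ≥0 where
  toFun φ := NNReal.mk (dom Λ φ) (dom_nonneg Λ φ.continuous)
  map_add' φ ψ := by
    apply NNReal.eq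
    rw [NNReal.coe_mk, NNReal.coe_add, NNReal.coe_mk, NNReal.coe_mk]
    exact dom_add Λ φ.continuous ψ.continuous
  map_smul' c φ := by
    apply NNReal.eq
    rw [NNReal.coe_mk, RingHom.id_apply, smul_eq_mul, NNReal.coe_mul, NNReal.coe_mk]
    exact dom_smul Λ φ.continuous c

variable [MeasurableSpace K] [BorelSpace K]

theorem exists_dominating (Λ : C(K, E) →L[ℝ] ℝ) :
    ∃ m : Measure K, m.Regular ∧ IsFiniteMeasure m ∧
      ∀ g : C(K, E), Λ g ≤ ∫ x, ‖g x‖ ∂m := by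
  refine ⟨NNRealRMK.rieszMeasure (domLin Λ), inferInstance, inferInstance, ?_⟩
  intro g
  let φ : C_c(K, ℝ≥0) := ⟨⟨fun x => ‖g x‖₊, g.continuous.nnnorm⟩, HasCompactSupport.of_compactSpace _⟩
  have h := NNRealRMK.integral_rieszMeasure (domLin Λ) φ
  have h2 : ∫ x, ‖g x‖ ∂(NNRealRMK.rieszMeasure (domLin Λ)) = dom Λ φ := h
  rw [h2]
  exact le_dom Λ φ.continuous (fun x => le_of_eq rfl)

theorem exists_jordan (ν : C(K, ℝ) →L[ℝ] ℝ) :
    ∃ μ₁ μ₂ : Measure K, μ₁.Regular ∧ IsFiniteMeasure μ₁ ∧ μ₂.Regular ∧ IsFiniteMeasure μ₂ ∧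
      ∀ g : C(K, ℝ), ν g = ∫ x, g x ∂μ₁ - ∫ x, g x ∂μ₂ := by
  obtain ⟨m, hm1, hm2, hm⟩ := exists_dominating ν
  let Λ : C_c(K, ℝ) →ₚ[ℝ] ℝ :=
  { toFun g := ∫ x, g x ∂m + ν g.toContinuousMap
    map_add' g g' := by
      have h1 : ∫ x, (g + g') x ∂m = ∫ x, g x ∂m + ∫ x, g' x ∂m :=
        integral_add g.integrable g'.integrable
      have h2 : ν (g + g').toContinuousMap = ν g.toContinuousMap + ν g'.toContinuousMap := by
        rw [← map_add]; rfl
      rw [h1, h2]; ring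
    map_smul' c g := by
      have h1 : ∫ x, (c • g) x ∂m = c * ∫ x, g x ∂m := integral_smul c g
      have h2 : ν (c • g).toContinuousMap = c * ν g.toContinuousMap := by
        rw [← smul_eq_mul, ← map_smul]; rfl
      rw [h1, h2, RingHom.id_apply, smul_eq_mul]; ring
    monotone' g g' hgg' := by
      have h1 := hm (g.toContinuousMap - g'.toContinuousMap)
      have h2 : ∫ x, ‖(g.toContinuousMap - g'.toContinuousMap) x‖ ∂m
          = ∫ x, g' x ∂m - ∫ x, g x ∂m := by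
        rw [← integral_sub g'.integrable g.integrable]
        apply integral_congr_ae
        refine Eventually.of_forall (fun x => ?_)
        have : g x ≤ g' x := hgg' x
        simp only [ContinuousMap.sub_apply, CompactlySupportedContinuousMap.coe_toContinuousMap]
        rw [Real.norm_eq_abs, abs_of_nonpos (by linarith)]
        ring
      rw [h2, map_sub] at h1
      linarith }
  refine ⟨RealRMK.rieszMeasure Λ, m, inferInstance, inferInstance, hm1, hm2, ?_⟩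
  intro g
  let g' : C_c(K, ℝ) := ⟨g, HasCompactSupport.of_compactSpace _⟩
  have h := RealRMK.integral_rieszMeasure Λ g'
  have h2 : ∫ x, g x ∂(RealRMK.rieszMeasure Λ) = ∫ x, g x ∂m + ν g := h
  rw [h2]; ring

end Pool.Agent.R884.AffB
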