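import Mathlib

/-!
Barycentres on compact convex sets and the local step for affine Baire-one functions.
-/

namespace Pool.Agent.R884.AffB

open MeasureTheory Set Filter Topology
open scoped NNReal ENNReal

/-- Baire: a pointwise limit of continuous functions has small oscillation somewhere. -/
theorem baire_osc {Y : Type*} [TopologicalSpace Y] [BaireSpace Y] [Nonempty Y]
    {g : ℕ → Y → ℝ} (hg : ∀ n, Continuous (g n)) {φ : Y → ℝ}
    (hφ : ∀ y, Tendsto (fun n => g n y) atTop (𝓝 (φ y))) {δ : ℝ} (hδ : 0 < δ) :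
    ∃ U : Set Y, IsOpen U ∧ U.Nonempty ∧ ∀ y ∈ U, ∀ z ∈ U, φ y - φ z < δ := by
  let A : ℕ → Set Y := fun m => {y | ∀ i j, m ≤ i → m ≤ j → |g i y - g j y| ≤ δ / 5}
  have hA : ∀ m, IsClosed (A m) := by
    intro m
    have : A m = ⋂ i, ⋂ j, ⋂ (_ : m ≤ i), ⋂ (_ : m ≤ j), {y | |g i y - g j y| ≤ δ / 5} := by
      ext y; simp [A]
    rw [this]
    refine isClosed_iInter fun i => isClosed_iInter fun j => isClosed_iInter fun _ =>
      isClosed_iInter fun _ => ?_
    exact isClosed_le (((hg i).sub (hg j)).abs) continuous_const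
  have hU : ⋃ m, A m = univ := by
    apply eq_univ_of_forall
    intro y
    obtain ⟨N, hN⟩ := (Metric.cauchySeq_iff.1 (hφ y).cauchySeq) (δ / 5) (by positivity)
    refine mem_iUnion.2 ⟨N, fun i j hi hj => ?_⟩
    have := hN i hi j hj
    rw [Real.dist_eq] at this
    exact this.le
  obtain ⟨m, y0, hy0⟩ := nonempty_interior_of_iUnion_of_closed hA hU
  refine ⟨interior (A m) ∩ {y | |g m y - g m y0| < δ / 5}, ?_, ⟨y0, hy0, ?_⟩, ?_⟩
  · exact isOpen_interior.inter (isOpen_lt (((hg m).sub continuous_const).abs) continuous_const)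
  · simp only [mem_ofPred_eq, sub_self, abs_zero]; positivity
  · have key : ∀ y ∈ A m, |g m y - φ y| ≤ δ / 5 := by
      intro y hy
      have h1 : Tendsto (fun j => |g m y - g j y|) atTop (𝓝 (|g m y - φ y|)) :=
        (tendsto_const_nhds.sub (hφ y)).abs
      exact le_of_tendsto h1 (eventually_atTop.2 ⟨m, fun j hj => hy m j le_rfl hj⟩)
    intro y hy z hz
    have h1 := abs_le.1 (key y (interior_subset hy.1))
    have h2 := abs_le.1 (key z (interior_subset hz.1))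
    have hy2 : |g m y - g m y0| < δ / 5 := hy.2
    have hz2 : |g m z - g m y0| < δ / 5 := hz.2
    have h3 := abs_lt.1 hy2
    have h4 := abs_lt.1 hz2
    linarith [h1.1, h1.2, h2.1, h2.2, h3.1, h3.2, h4.1, h4.2]

variable {V : Type*} [AddCommGroup V] [Module ℝ V] [TopologicalSpace V]
  [IsTopologicalAddGroup V] [ContinuousSMul ℝ V] [LocallyConvexSpace ℝ V] [T2Space V]
variable {X : Set V}

lemma intCont [CompactSpace X] [MeasurableSpace X] [BorelSpace X] (μ : Measure X)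
    [IsFiniteMeasure μ] {g : X → ℝ} (hg : Continuous g) : Integrable g μ := by
  have h : HasCompactSupport g := HasCompactSupport.of_compactSpace g
  exact hg.integrable_of_hasCompactSupport h

/-- existence of barycentres -/
theorem exists_bary (hX : IsCompact X) (hc : Convex ℝ X) [MeasurableSpace X] [BorelSpace X]
    (μ : Measure X) [IsFiniteMeasure μ] (hμ : μ ≠ 0) :
    ∃ r ∈ X, ∀ ℓ : V →L[ℝ] ℝ, ∫ x : X, ℓ x ∂μ = μ.real univ * ℓ r := by
  haveI : CompactSpace X := isCompact_iff_compactSpace.1 hX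
  haveI : NeZero μ := ⟨hμ⟩
  have hpos : 0 < μ.real univ := by
    rw [measureReal_def, ENNReal.toReal_pos_iff]
    exact ⟨Measure.measure_univ_pos.2 hμ, measure_lt_top μ _⟩
  let c : (V →L[ℝ] ℝ) → ℝ := fun ℓ => ⨍ x : X, ℓ x ∂μ
  have hmain : (X ∩ ⋂ ℓ : V →L[ℝ] ℝ, {v | ℓ v = c ℓ}).Nonempty := by
    apply hX.inter_iInter_nonempty
    · intro ℓ
      exact isClosed_eq ℓ.continuous continuous_const
    · intro u
      let L : V → (u → ℝ) := fun v i => (i : V →L[ℝ] ℝ) v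
      have hLc : Continuous L := continuous_pi fun i => (i : V →L[ℝ] ℝ).continuous
      have hconv : Convex ℝ (L '' X) := by
        let L' : V →ₗ[ℝ] (u → ℝ) := LinearMap.pi fun i => ((i : V →L[ℝ] ℝ) : V →ₗ[ℝ] ℝ)
        exact hc.linear_image L'
      have hclosed : IsClosed (L '' X) := (hX.image hLc).isClosed
      have hint : Integrable (fun x : X => L x) μ := by
        apply Integrable.of_eval
        intro i
        exact intCont μ ((i : V →L[ℝ] ℝ).continuous.comp continuous_subtype_val)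
      have hmem := hconv.average_mem (μ := μ) (f := fun x : X => L x) hclosed
        (Eventually.of_forall fun x => ⟨x, x.2, rfl⟩) hint
      obtain ⟨v, hv, hLv⟩ := hmem
      refine ⟨v, hv, ?_⟩
      simp only [mem_iInter, mem_ofPred_eq]
      intro ℓ hℓ
      have h1 := congrFun hLv ⟨ℓ, hℓ⟩
      have h2 : (⨍ x : X, L x ∂μ) ⟨ℓ, hℓ⟩ = ⨍ x : X, ℓ x ∂μ := by
        rw [average_eq, average_eq, Pi.smul_apply]
        congr 1
        rw [eval_integral]
        intro i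
        exact intCont μ ((i : V →L[ℝ] ℝ).continuous.comp continuous_subtype_val)
      exact h1.trans h2
  obtain ⟨r, hr, hr2⟩ := hmain
  refine ⟨r, hr, fun ℓ => ?_⟩
  have := mem_iInter.1 hr2 ℓ
  simp only [mem_ofPred_eq, c] at this
  rw [this, average_eq, smul_eq_mul, ← mul_assoc, mul_inv_cancel₀ hpos.ne', one_mul]

/-- the barycentre lies in every closed convex set of full measure -/
theorem bary_mem (hX : IsCompact X) [MeasurableSpace X] [BorelSpace X]
    (μ : Measure X) [IsFiniteMeasure μ] (hμ : μ ≠ 0) {r : V}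
    (hr : ∀ ℓ : V →L[ℝ] ℝ, ∫ x : X, ℓ x ∂μ = μ.real univ * ℓ r)
    {Y : Set V} (hYc : Convex ℝ Y) (hYcl : IsClosed Y) (hY : ∀ᵐ x : X ∂μ, (x : V) ∈ Y) :
    r ∈ Y := by
  haveI : CompactSpace X := isCompact_iff_compactSpace.1 hX
  have hpos : 0 < μ.real univ := by
    rw [measureReal_def, ENNReal.toReal_pos_iff]
    exact ⟨Measure.measure_univ_pos.2 hμ, measure_lt_top μ _⟩
  by_contra hrY
  obtain ⟨ℓ, u, h1, h2⟩ := geometric_hahn_banach_point_closed hYc hYcl hrY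
  have h3 : ∫ x : X, u ∂μ ≤ ∫ x : X, ℓ x ∂μ := by
    apply integral_mono_ae (integrable_const u) (intCont μ (ℓ.continuous.comp continuous_subtype_val))
    filter_upwards [hY] with x hx
    exact (h2 _ hx).le
  rw [hr ℓ, integral_const, smul_eq_mul] at h3
  have := le_of_mul_le_mul_left h3 hpos
  linarith

lemma ext_functional {a b : V} (h : ∀ ℓ : V →L[ℝ] ℝ, ℓ a = ℓ b) : a = b := by
  by_contra hab
  obtain ⟨ℓ, hℓ⟩ := geometric_hahn_banach_point_point hab
  exact absurd (h ℓ) hℓ.ne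

/-- `φ` is affine on `X` -/
def AffOn (X : Set V) (φ : V → ℝ) : Prop :=
  ∀ x ∈ X, ∀ y ∈ X, ∀ a b : ℝ, 0 ≤ a → 0 ≤ b → a + b = 1 →
    φ (a • x + b • y) = a * φ x + b * φ y

/-- closed convex neighbourhoods -/
lemma exists_closed_convex_nhds {x : V} {U : Set V} (hU : U ∈ 𝓝 x) :
    ∃ N ∈ 𝓝 x, IsClosed N ∧ Convex ℝ N ∧ N ⊆ U := by
  obtain ⟨W, hW, hWc, hWU⟩ := exists_mem_nhds_isClosed_subset hU
  obtain ⟨N, ⟨hN, hNc⟩, hNW⟩ := (LocallyConvexSpace.convex_basis (𝕜 := ℝ) x).mem_iff.1 hW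
  exact ⟨closure N, mem_of_superset hN subset_closure, isClosed_closure, hNc.closure,
    (closure_minimal hNW hWc).trans hWU⟩

/-- the local step: a set of positive measure contains a set of positive measure on which `φ`
is nearly constant, also near the value at the barycentre -/
theorem local_step (hX : IsCompact X) (hc : Convex ℝ X) [MeasurableSpace X] [BorelSpace X]
    (μ : Measure X) [IsFiniteMeasure μ] [μ.InnerRegularCompactLTTop]
    {φ : V → ℝ} (haff : AffOn X φ) {F : ℕ → X → ℝ} (hF : ∀ n, Continuous (F n))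
    (hlim : ∀ x : X, Tendsto (fun n => F n x) atTop (𝓝 (φ x)))
    {B : Set X} (hB : MeasurableSet B) (hμB : μ B ≠ 0) {δ : ℝ} (hδ : 0 < δ) :
    ∃ C ⊆ B, MeasurableSet C ∧ μ C ≠ 0 ∧
      ∀ r : V, (∀ ℓ : V →L[ℝ] ℝ, ∫ x in C, ℓ (x : V) ∂μ = μ.real C * ℓ r) →
        ∀ x ∈ C, |φ r - φ x| ≤ δ := by
  haveI : CompactSpace X := isCompact_iff_compactSpace.1 hX
  set ν := μ.restrict B with hν
  have hν0 : ν univ ≠ 0 := by rw [hν, Measure.restrict_apply_univ]; exact hμB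
  -- support
  let K0 : Set X := {x | ∀ U : Set X, IsOpen U → x ∈ U → ν U ≠ 0}
  have hK0cl : IsClosed K0 := by
    rw [← isOpen_compl_iff, isOpen_iff_forall_mem_open]
    intro x hx
    simp only [K0, mem_compl_iff, mem_ofPred_eq, not_forall] at hx
    obtain ⟨U, hUo, hxU, hU0⟩ := hx
    refine ⟨U, ?_, hUo, hxU⟩
    intro y hy hyK
    exact hyK U hUo hy (by simpa using hU0)
  have hK0n : ν K0ᶜ = 0 := by
    by_contra hne
    obtain ⟨L, hLK, hLc, hL0⟩ := (hK0cl.measurableSet.compl).exists_lt_isCompact_of_ne_top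
      (μ := ν) (measure_ne_top ν _) (pos_iff_ne_zero.2 hne)
    refine hL0.ne' ?_
    apply hLc.measure_zero_of_nhdsWithin
    intro x hx
    have hxK := hLK hx
    simp only [K0, mem_compl_iff, mem_ofPred_eq, not_forall] at hxK
    obtain ⟨U, hUo, hxU, hU0⟩ := hxK
    exact ⟨U, mem_nhdsWithin_of_mem_nhds (hUo.mem_nhds hxU), by simpa using hU0⟩
  have hK0ne : K0.Nonempty := by
    by_contra hne
    rw [not_nonempty_iff_eq_empty] at hne
    rw [hne, compl_empty] at hK0n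
    exact hν0 hK0n
  -- closed convex hull
  set S : Set V := (Subtype.val '' K0) with hS
  set Y : Set V := closure (convexHull ℝ S) with hY
  have hSX : S ⊆ X := by rintro _ ⟨x, _, rfl⟩; exact x.2
  have hYX : Y ⊆ X := closure_minimal (convexHull_min hSX hc) hX.isClosed
  have hYcl : IsClosed Y := isClosed_closure
  have hYc : Convex ℝ Y := (convex_convexHull ℝ S).closure
  have hYcomp : IsCompact Y := hX.of_isClosed_subset hYcl hYX
  have hSY : S ⊆ Y := (subset_convexHull ℝ S).trans subset_closure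
  -- oscillation set
  let G : Set V := {v | v ∈ Y ∧ ∀ U ∈ 𝓝 v, ∃ y ∈ U ∩ Y, ∃ z ∈ U ∩ Y, δ ≤ φ y - φ z}
  have hGcl : IsClosed G := by
    rw [← isOpen_compl_iff, isOpen_iff_forall_mem_open]
    intro v hv
    by_cases hvY : v ∈ Y
    · have : ¬ ∀ U ∈ 𝓝 v, ∃ y ∈ U ∩ Y, ∃ z ∈ U ∩ Y, δ ≤ φ y - φ z := fun h => hv ⟨hvY, h⟩
      push Not at this
      obtain ⟨U, hU, hUd⟩ := this
      obtain ⟨W, hWU, hWo, hvW⟩ := mem_nhds_iff.1 hU
      refine ⟨W, ?_, hWo, hvW⟩
      intro w hw hwG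
      obtain ⟨y, hy, z, hz, hyz⟩ := hwG.2 W (hWo.mem_nhds hw)
      exact absurd (hUd y ⟨hWU hy.1, hy.2⟩ z ⟨hWU hz.1, hz.2⟩) (not_lt.2 hyz)
    · refine ⟨Yᶜ, ?_, hYcl.isOpen_compl, hvY⟩
      intro w hw hwG
      exact hw hwG.1
  have hGc : Convex ℝ G := by
    rintro v1 ⟨hv1, h1⟩ v2 ⟨hv2, h2⟩ a b ha hb hab
    refine ⟨hYc hv1 hv2 ha hb hab, fun U hU => ?_⟩
    have hcont : Tendsto (fun p : V × V => a • p.1 + b • p.2) (𝓝 v1 ×ˢ 𝓝 v2)
        (𝓝 (a • v1 + b • v2)) := by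
      rw [← nhds_prod_eq]
      exact Continuous.tendsto (by fun_prop) (v1, v2)
    obtain ⟨U1, hU1, U2, hU2, hUU⟩ := mem_prod_iff.1 (hcont hU)
    obtain ⟨y1, hy1, z1, hz1, e1⟩ := h1 U1 hU1
    obtain ⟨y2, hy2, z2, hz2, e2⟩ := h2 U2 hU2
    refine ⟨a • y1 + b • y2, ⟨?_, hYc hy1.2 hy2.2 ha hb hab⟩, a • z1 + b • z2,
      ⟨?_, hYc hz1.2 hz2.2 ha hb hab⟩, ?_⟩
    · exact hUU (mk_mem_prod hy1.1 hy2.1)
    · exact hUU (mk_mem_prod hz1.1 hz2.1)
    · rw [haff y1 (hYX hy1.2) y2 (hYX hy2.2) a b ha hb hab,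
        haff z1 (hYX hz1.2) z2 (hYX hz2.2) a b ha hb hab]
      have : a * δ + b * δ = δ := by rw [← add_mul, hab, one_mul]
      nlinarith [mul_le_mul_of_nonneg_left e1 ha, mul_le_mul_of_nonneg_left e2 hb]
  -- Baire
  have hBaire : ∃ y0 ∈ Y, y0 ∉ G := by
    haveI : CompactSpace Y := isCompact_iff_compactSpace.1 hYcomp
    haveI : Nonempty Y := by
      obtain ⟨x, hx⟩ := hK0ne
      exact ⟨⟨x, hSY ⟨x, hx, rfl⟩⟩⟩
    obtain ⟨U, hUo, ⟨y0, hy0⟩, hUd⟩ := baire_osc (Y := Y) (g := fun n y => F n ⟨y, hYX y.2⟩)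
      (φ := fun y => φ y)
      (fun n => (hF n).comp (continuous_subtype_val.subtype_mk _))
      (fun y => hlim ⟨y, hYX y.2⟩) hδ
    obtain ⟨W, hWo, hWU⟩ := isOpen_induced_iff.1 hUo
    refine ⟨y0, y0.2, fun hG => ?_⟩
    have hy0W : (y0 : V) ∈ W := by
      have : y0 ∈ Subtype.val ⁻¹' W := by rw [hWU]; exact hy0
      exact this
    obtain ⟨y, hy, z, hz, hyz⟩ := hG.2 W (hWo.mem_nhds hy0W)
    have e1 : (⟨y, hy.2⟩ : Y) ∈ U := by rw [← hWU]; exact hy.1
    have e2 : (⟨z, hz.2⟩ : Y) ∈ U := by rw [← hWU]; exact hz.1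
    exact absurd (hUd _ e1 _ e2) (not_lt.2 hyz)
  have hx0 : ∃ x0 ∈ K0, (x0 : V) ∉ G := by
    by_contra hcon
    push Not at hcon
    have hSG : S ⊆ G := by rintro _ ⟨x, hx, rfl⟩; exact hcon x hx
    have hYG : Y ⊆ G := closure_minimal (convexHull_min hSG hGc) hGcl
    obtain ⟨y0, hy0, hy0'⟩ := hBaire
    exact hy0' (hYG hy0)
  obtain ⟨x0, hx0K, hx0G⟩ := hx0
  have hx0Y : (x0 : V) ∈ Y := hSY ⟨x0, hx0K, rfl⟩
  have : ¬ ∀ U ∈ 𝓝 (x0 : V), ∃ y ∈ U ∩ Y, ∃ z ∈ U ∩ Y, δ ≤ φ y - φ z :=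
    fun h => hx0G ⟨hx0Y, h⟩
  push Not at this
  obtain ⟨U, hU, hUd⟩ := this
  obtain ⟨N, hN, hNcl, hNc, hNU⟩ := exists_closed_convex_nhds hU
  set C : Set X := B ∩ (K0 ∩ Subtype.val ⁻¹' N) with hC
  have hpre : MeasurableSet (Subtype.val ⁻¹' N : Set X) :=
    (hNcl.preimage continuous_subtype_val).measurableSet
  have hCm : MeasurableSet C := hB.inter (hK0cl.measurableSet.inter hpre)
  have hC0 : μ C ≠ 0 := by
    have e1 : μ C = ν (K0 ∩ Subtype.val ⁻¹' N) := by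
      rw [hν, Measure.restrict_apply (hK0cl.measurableSet.inter hpre), hC, inter_comm]
    rw [e1]
    intro h0
    have e2 : ν (Subtype.val ⁻¹' N : Set X) = 0 := by
      have : (Subtype.val ⁻¹' N : Set X) ⊆ (K0 ∩ Subtype.val ⁻¹' N) ∪ K0ᶜ := by
        intro x hx
        by_cases h : x ∈ K0
        · exact Or.inl ⟨h, hx⟩
        · exact Or.inr h
      exact measure_mono_null this (measure_union_null h0 hK0n)
    obtain ⟨W, hWN, hWo, hxW⟩ := mem_nhds_iff.1 hN
    refine hx0K (Subtype.val ⁻¹' W) (hWo.preimage continuous_subtype_val) hxW ?_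
    exact measure_mono_null (preimage_mono hWN) e2
  refine ⟨C, inter_subset_left, hCm, hC0, ?_⟩
  intro r hr x hx
  have hr' : r ∈ N ∩ Y := by
    apply bary_mem hX (μ.restrict C) (by rwa [Ne, Measure.restrict_eq_zero]) (r := r) ?_
      (hNc.inter hYc) (hNcl.inter hYcl) ?_
    · intro ℓ
      rw [hr ℓ, measureReal_restrict_apply_univ]
    · rw [ae_restrict_iff' hCm]
      refine Eventually.of_forall fun y hy => ?_
      exact ⟨hy.2.2, hSY ⟨y, hy.2.1, rfl⟩⟩
  have hxN : (x : V) ∈ N := hx.2.2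
  have hxY : (x : V) ∈ Y := hSY ⟨x, hx.2.1, rfl⟩
  have h1 := hUd r ⟨hNU hr'.1, hr'.2⟩ x ⟨hNU hxN, hxY⟩
  have h2 := hUd x ⟨hNU hxN, hxY⟩ r ⟨hNU hr'.1, hr'.2⟩
  rw [abs_le]
  constructor <;> linarith

end Pool.Agent.R884.AffB
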