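import Pool.Agent.R884.AffB.Formula

/-!
The core approximation step: under the approximation property, convex combinations of the tails
of a bounded sequence of continuous maps converging pointwise to an affine map are uniformly close
to continuous affine maps.
-/

namespace Pool.Agent.R884.AffB

open MeasureTheory Set Filter Topology
open scoped NNReal ENNReal

variable {V : Type*} [AddCommGroup V] [Module ℝ V] [TopologicalSpace V]
  [IsTopologicalAddGroup V] [ContinuousSMul ℝ V] [LocallyConvexSpace ℝ V] [T2Space V]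
variable {X : Set V}

/-- The approximation property of a normed space `E` over `𝕜`. -/
def HasAP (𝕜 E : Type*) [RCLike 𝕜] [NormedAddCommGroup E] [NormedSpace 𝕜 E] : Prop :=
  ∀ K : Set E, IsCompact K → ∀ ε : ℝ, 0 < ε →
    ∃ T : E →L[𝕜] E, FiniteDimensional 𝕜 (LinearMap.range (T : E →ₗ[𝕜] E)) ∧
      ∀ x ∈ K, ‖T x - x‖ < ε

variable {𝕜 E : Type*} [RCLike 𝕜] [NormedAddCommGroup E] [NormedSpace 𝕜 E] [NormedSpace ℝ E]
  [IsScalarTower ℝ 𝕜 E]

/-- decomposition of a finite rank operator with real functionals -/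
lemma finite_rank_decomp (T : E →L[𝕜] E)
    (hT : FiniteDimensional 𝕜 (LinearMap.range (T : E →ₗ[𝕜] E))) :
    ∃ (n : ℕ) (ℓ : Fin n → E →L[ℝ] ℝ) (v : Fin n → E), ∀ x, T x = ∑ j, ℓ j x • v j := by
  set W : Submodule 𝕜 E := LinearMap.range (T : E →ₗ[𝕜] E) with hW
  haveI h1 : FiniteDimensional ℝ W := FiniteDimensional.trans ℝ 𝕜 W
  let Wr : Submodule ℝ E := W.restrictScalars ℝ
  haveI h2 : FiniteDimensional ℝ Wr := h1
  let T' : E →L[ℝ] Wr := (T.restrictScalars ℝ).codRestrict Wr (fun x => ⟨x, rfl⟩)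
  let b := Module.finBasis ℝ Wr
  refine ⟨_, fun j => (LinearMap.toContinuousLinearMap (b.coord j)).comp T', fun j => (b j : E), ?_⟩
  intro x
  have h3 := b.sum_repr (T' x)
  have h4 := congrArg (fun w : Wr => (w : E)) h3
  simp only [Submodule.coe_sum, Submodule.coe_smul] at h4
  have h5 : ((T' x : Wr) : E) = T x := rfl
  rw [← h5, ← h4]
  rfl

lemma finite_rank_limit (hX : IsCompact X) (hc : Convex ℝ X) [CompactSpace X]
    (Λ : C(X, E) →L[ℝ] ℝ) (hΛ : ∀ a : C(X, E), IsAffine X a → Λ a = 0)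
    {f : X → E} (hf : IsAffine X f) {F : ℕ → C(X, E)}
    (hlim : ∀ x : X, Tendsto (fun n => F n x) atTop (𝓝 (f x)))
    {M : ℝ} (hM : ∀ n x, ‖F n x‖ ≤ M) (T : E →L[𝕜] E)
    (hT : FiniteDimensional 𝕜 (LinearMap.range (T : E →ₗ[𝕜] E))) :
    Tendsto (fun n => Λ ((T : C(E, E)).comp (F n))) atTop (𝓝 0) := by
  obtain ⟨N, ℓ, v, hTv⟩ := finite_rank_decomp T hT
  let ν : Fin N → C(X, ℝ) →L[ℝ] ℝ := fun j =>
    Λ.comp ((ContinuousLinearMap.toSpanSingleton ℝ (v j)).compLeftContinuous ℝ X)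
  have hν : ∀ j (h : C(X, ℝ)), ν j h = Λ ⟨fun x => h x • v j, h.continuous.smul continuous_const⟩ := by
    intro j h
    rfl
  let H : Fin N → ℕ → C(X, ℝ) := fun j n => ⟨fun x => ℓ j (F n x), (ℓ j).continuous.comp (F n).continuous⟩
  have h1 : ∀ n, Λ ((T : C(E, E)).comp (F n)) = ∑ j, ν j (H j n) := by
    intro n
    simp only [hν]
    rw [← map_sum]
    congr 1
    ext x
    simp only [ContinuousMap.coe_sum, Finset.sum_apply]
    exact hTv (F n x)
  simp only [h1]
  have h2 : Tendsto (fun n => ∑ j, ν j (H j n)) atTop (𝓝 (∑ _j : Fin N, (0 : ℝ))) := by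
    apply tendsto_finsetSum
    intro j _
    apply scalar_claim hX hc (ν j) _ (φ := fun x => ℓ j (f x)) _ (F := H j) _ (M := ‖ℓ j‖ * M) _
    · intro a ha
      rw [hν]
      apply hΛ
      intro x y z t h0 h1 hz
      simp only [ContinuousMap.coe_mk]
      rw [ha x y z t h0 h1 hz, smul_eq_mul, smul_eq_mul, add_smul, mul_smul, mul_smul]
    · intro x y z t h0 h1 hz
      simp only
      rw [hf x y z t h0 h1 hz, map_add, map_smul, map_smul]
    · intro x
      exact ((ℓ j).continuous.tendsto _).comp (hlim x)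
    · intro n x
      calc |H j n x| = ‖ℓ j (F n x)‖ := rfl
        _ ≤ ‖ℓ j‖ * ‖F n x‖ := (ℓ j).le_opNorm _
        _ ≤ ‖ℓ j‖ * M := by gcongr; exact hM n x
  simpa using h2

/-- a sequence of compact sets shrinking to `0`, together with `0`, is compact -/
lemma compact_union {u : ℕ → C(X, E)} [CompactSpace X]
    (hu : ∀ j x, ‖u j x‖ ≤ (1 / 2 : ℝ) ^ j) :
    IsCompact ({0} ∪ ⋃ j, range (u j) : Set E) := by
  rw [isCompact_iff_ultrafilter_le_nhds]
  intro l hl
  by_cases h : ∃ J : ℕ, (⋃ j ∈ Finset.range J, range (u j)) ∈ l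
  · obtain ⟨J, hJ⟩ := h
    have hcomp : IsCompact (⋃ j ∈ Finset.range J, range (u j)) :=
      (Finset.range J).isCompact_biUnion fun j _ => isCompact_range (u j).continuous
    obtain ⟨x, hx, hlx⟩ := isCompact_iff_ultrafilter_le_nhds.1 hcomp l (le_principal_iff.2 hJ)
    refine ⟨x, Or.inr ?_, hlx⟩
    simp only [mem_iUnion, Finset.mem_range] at hx ⊢
    obtain ⟨j, _, hj⟩ := hx
    exact ⟨j, hj⟩
  · push Not at h
    refine ⟨0, Or.inl rfl, ?_⟩
    rw [Metric.nhds_basis_closedBall.ge_iff]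
    intro ε hε
    obtain ⟨J, hJ⟩ := exists_pow_lt_of_lt_one hε (by norm_num : (1 / 2 : ℝ) < 1)
    have h1 : (⋃ j ∈ Finset.range J, range (u j))ᶜ ∈ l := Ultrafilter.compl_mem_iff_notMem.2 (h J)
    have h2 : ({0} ∪ ⋃ j, range (u j) : Set E) ∈ l := le_principal_iff.1 hl
    refine mem_of_superset (inter_mem h1 h2) ?_
    rintro y ⟨hy1, hy2⟩
    rw [mem_closedBall_zero_iff]
    rcases hy2 with hy2 | hy2
    · rw [mem_singleton_iff.1 hy2, norm_zero]; exact hε.le
    · obtain ⟨j, x, hx⟩ := mem_iUnion.1 hy2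
      have hj : J ≤ j := by
        by_contra hcon
        apply hy1
        simp only [mem_iUnion, Finset.mem_range]
        exact ⟨j, by omega, x, hx⟩
      rw [← hx]
      calc ‖u j x‖ ≤ (1 / 2 : ℝ) ^ j := hu j x
        _ ≤ (1 / 2 : ℝ) ^ J := pow_le_pow_of_le_one (by norm_num) (by norm_num) hj
        _ ≤ ε := hJ.le

/-- The core step. -/
theorem core (hAP : HasAP 𝕜 E) (hX : IsCompact X) (hc : Convex ℝ X) [CompactSpace X]
    {f : X → E} (hf : IsAffine X f) {F : ℕ → C(X, E)}
    (hlim : ∀ x : X, Tendsto (fun n => F n x) atTop (𝓝 (f x)))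
    {M : ℝ} (hM : ∀ n x, ‖F n x‖ ≤ M) {δ : ℝ} (hδ : 0 < δ) (N : ℕ) :
    ∃ h ∈ convexHull ℝ (F '' {k | N ≤ k}), ∃ a : C(X, E), IsAffine X a ∧ ‖h - a‖ < δ := by
  letI : MeasurableSpace X := borel X
  haveI : BorelSpace X := ⟨rfl⟩
  by_contra hcon
  push Not at hcon
  let s : Set C(X, E) := {g | ∃ a : C(X, E), IsAffine X a ∧ ‖g - a‖ < δ}
  have hs_open : IsOpen s := by
    have : s = ⋃ a : {a : C(X, E) // IsAffine X a}, {g : C(X, E) | ‖g - (a : C(X, E))‖ < δ} := by
      ext g
      simp only [s, mem_ofPred_eq, mem_iUnion, Subtype.exists, exists_prop]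
    rw [this]
    exact isOpen_iUnion fun a => isOpen_lt ((continuous_id.sub continuous_const).norm)
      continuous_const
  have hs_conv : Convex ℝ s := by
    rintro g1 ⟨a1, ha1, h1⟩ g2 ⟨a2, ha2, h2⟩ p q hp hq hpq
    refine ⟨p • a1 + q • a2, ?_, ?_⟩
    · intro x y z t h0 ht hz
      simp only [ContinuousMap.add_apply, ContinuousMap.smul_apply]
      rw [ha1 x y z t h0 ht hz, ha2 x y z t h0 ht hz]
      simp only [smul_add, smul_smul]
      rw [mul_comm p t, mul_comm p (1 - t), mul_comm q t, mul_comm q (1 - t)]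
      abel
    · have e : p • g1 + q • g2 - (p • a1 + q • a2) = p • (g1 - a1) + q • (g2 - a2) := by
        simp only [smul_sub]; abel
      rw [e]
      have h3 : ‖p • (g1 - a1) + q • (g2 - a2)‖ ≤ p * ‖g1 - a1‖ + q * ‖g2 - a2‖ := by
        refine (norm_add_le _ _).trans ?_
        rw [norm_smul, norm_smul, Real.norm_of_nonneg hp, Real.norm_of_nonneg hq]
      rcases eq_or_lt_of_le hp with rfl | hp'
      · have : q = 1 := by linarith
        subst this
        simp only [zero_mul, one_mul, zero_add] at h3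
        linarith
      · have h4 : p * ‖g1 - a1‖ < p * δ := mul_lt_mul_of_pos_left h1 hp'
        have h5 : q * ‖g2 - a2‖ ≤ q * δ := mul_le_mul_of_nonneg_left h2.le hq
        have h6 : p * δ + q * δ = δ := by rw [← add_mul, hpq, one_mul]
        linarith
  have hdisj : Disjoint s (convexHull ℝ (F '' {k | N ≤ k})) := by
    rw [Set.disjoint_left]
    rintro g ⟨a, ha, hga⟩ hg
    exact absurd hga (not_lt.2 (hcon g hg a ha))
  obtain ⟨Λ, u, hu1, hu2⟩ := geometric_hahn_banach_open hs_conv hs_open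
    (convex_convexHull ℝ (F '' {k | N ≤ k})) hdisj
  have hmem : ∀ a : C(X, E), IsAffine X a → a ∈ s := fun a ha => ⟨a, ha, by simpa using hδ⟩
  have hu0 : 0 < u := by
    have := hu1 0 (hmem 0 (fun x y z t _ _ _ => by simp))
    simpa using this
  have hΛ0 : ∀ a : C(X, E), IsAffine X a → Λ a = 0 := by
    intro a ha
    by_contra hne
    have h1 := hu1 ((u / Λ a) • a) (hmem _ (by
      intro x y z t h0 h1 hz
      simp only [ContinuousMap.smul_apply]
      rw [ha x y z t h0 h1 hz, smul_add, smul_comm t, smul_comm (1 - t)]))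
    rw [map_smul, smul_eq_mul, div_mul_cancel₀ _ hne] at h1
    exact lt_irrefl _ h1
  have hΛF : ∀ k, N ≤ k → u ≤ Λ (F k) := fun k hk =>
    hu2 _ (subset_convexHull ℝ _ ⟨k, hk, rfl⟩)
  obtain ⟨m, hm1, hm2, hm⟩ := exists_dominating Λ
  -- `L¹` convergence
  have hMnn : ∀ x : X, 0 ≤ M := fun x => (norm_nonneg _).trans (hM 0 x)
  have hfM : ∀ x, ‖f x‖ ≤ M := fun x => le_of_tendsto' (hlim x).norm (fun n => hM n x)
  have hDmeas : ∀ n, Measurable (fun x : X => ‖F n x - f x‖) := by
    intro n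
    apply measurable_of_tendsto_metrizable (f := fun k (x : X) => ‖F n x - F k x‖)
    · intro k
      exact (((F n).continuous.sub (F k).continuous).norm).measurable
    · rw [tendsto_pi_nhds]
      intro x
      exact (tendsto_const_nhds.sub (hlim x)).norm
  have hDle : ∀ n x, ‖F n x - f x‖ ≤ 2 * M := fun n x => by
    have := norm_sub_le (F n x) (f x)
    linarith [hM n x, hfM x]
  have hDint : ∀ n, Integrable (fun x : X => ‖F n x - f x‖) m := by
    intro n
    refine Integrable.of_bound (hDmeas n).aestronglyMeasurable (2 * M) (Eventually.of_forall ?_)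
    intro x
    rw [norm_norm]
    exact hDle n x
  have hD0 : Tendsto (fun n => ∫ x, ‖F n x - f x‖ ∂m) atTop (𝓝 0) := by
    have h1 : Tendsto (fun n => ∫ x, ‖F n x - f x‖ ∂m) atTop (𝓝 (∫ _x : X, (0 : ℝ) ∂m)) := by
      apply tendsto_integral_of_dominated_convergence (fun _ => 2 * M)
      · intro n; exact (hDmeas n).aestronglyMeasurable
      · exact integrable_const _
      · intro n
        refine Eventually.of_forall fun x => ?_
        rw [norm_norm]
        exact hDle n x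
      · refine Eventually.of_forall fun x => ?_
        have := ((hlim x).sub_const (f x)).norm
        rwa [sub_self, norm_zero] at this
    simpa using h1
  have hsub : ∀ j : ℕ, ∃ n, max N j ≤ n ∧ ∫ x, ‖F n x - f x‖ ∂m ≤ (1 / 4 : ℝ) ^ j := by
    intro j
    have h1 := (hD0.eventually (gt_mem_nhds (by positivity : (0 : ℝ) < (1 / 4 : ℝ) ^ j))).and
      (eventually_ge_atTop (max N j))
    obtain ⟨n, hn1, hn2⟩ := h1.exists
    exact ⟨n, hn2, hn1.le⟩
  choose n hn1 hn2 using hsub
  have hntop : Tendsto n atTop atTop :=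
    tendsto_atTop_mono (fun j => (le_max_right N j).trans (hn1 j)) tendsto_id
  have hnN : ∀ j, N ≤ n j := fun j => (le_max_left N j).trans (hn1 j)
  let g : ℕ → C(X, E) := fun j => Nat.casesOn j (F (n 0)) (fun j => F (n (j + 1)) - F (n j))
  have hg0 : g 0 = F (n 0) := rfl
  have hgs : ∀ j, g (j + 1) = F (n (j + 1)) - F (n j) := fun j => rfl
  let r : ℕ → X → ℝ := fun j x => 2 ^ j * ‖g j x‖ + (1 / 2) ^ j
  have hrpos : ∀ j x, 0 < r j x := fun j x => by simp only [r]; positivity
  have hrcont : ∀ j, Continuous (r j) := fun j => by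
    simp only [r]
    exact (continuous_const.mul (g j).continuous.norm).add continuous_const
  let v : ℕ → C(X, E) := fun j => ⟨fun x => (r j x)⁻¹ • g j x,
    ((hrcont j).inv₀ (fun x => (hrpos j x).ne')).smul (g j).continuous⟩
  have hv : ∀ j x, g j x = r j x • v j x := by
    intro j x
    simp only [v, ContinuousMap.coe_mk, smul_smul]
    rw [mul_inv_cancel₀ (hrpos j x).ne', one_smul]
  have hvle : ∀ j x, ‖v j x‖ ≤ (1 / 2 : ℝ) ^ j := by
    intro j x
    simp only [v, ContinuousMap.coe_mk, norm_smul, norm_inv, Real.norm_of_nonneg (hrpos j x).le]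
    rw [inv_mul_le_iff₀ (hrpos j x)]
    simp only [r]
    have e : (2 : ℝ) ^ j * (1 / 2) ^ j = 1 := by rw [← mul_pow]; norm_num
    have h1 : (2 ^ j * ‖g j x‖ + (1 / 2) ^ j) * (1 / 2) ^ j =
        ‖g j x‖ + (1 / 2 : ℝ) ^ j * (1 / 2) ^ j := by
      rw [add_mul, mul_right_comm, e, one_mul]
    rw [h1]
    have : 0 ≤ (1 / 2 : ℝ) ^ j * (1 / 2) ^ j := by positivity
    linarith
  set K : Set E := {0} ∪ ⋃ j, range (v j) with hK
  have hKc : IsCompact K := compact_union hvle
  -- integrals of `r`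
  have hrint : ∀ j, Integrable (r j) m := fun j => intCont m (hrcont j)
  set mX : ℝ := m.real univ with hmX
  have hmX0 : 0 ≤ mX := measureReal_nonneg
  have hr_int : ∀ j, ∫ x, r (j + 1) x ∂m ≤ (4 + mX) * (1 / 2) ^ j := by
    intro j
    have e1 : ∫ x, r (j + 1) x ∂m = 2 ^ (j + 1) * ∫ x, ‖g (j + 1) x‖ ∂m + mX * (1 / 2) ^ (j + 1) := by
      simp only [r]
      rw [integral_add ((intCont m (g (j + 1)).continuous.norm).const_mul _) (integrable_const _),
        integral_const_mul, integral_const, smul_eq_mul]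
    have e2 : ∫ x, ‖g (j + 1) x‖ ∂m ≤ (1 / 4) ^ (j + 1) + (1 / 4) ^ j := by
      calc ∫ x, ‖g (j + 1) x‖ ∂m ≤ ∫ x, (‖F (n (j + 1)) x - f x‖ + ‖F (n j) x - f x‖) ∂m := by
            apply integral_mono (intCont m (g (j + 1)).continuous.norm)
              ((hDint _).add (hDint _))
            intro x
            simp only [hgs, ContinuousMap.sub_apply]
            have : F (n (j + 1)) x - F (n j) x =
              (F (n (j + 1)) x - f x) - (F (n j) x - f x) := by abel
            rw [this]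
            exact norm_sub_le _ _
        _ = ∫ x, ‖F (n (j + 1)) x - f x‖ ∂m + ∫ x, ‖F (n j) x - f x‖ ∂m :=
            integral_add (hDint _) (hDint _)
        _ ≤ _ := add_le_add (hn2 _) (hn2 _)
    have e3 : (2 : ℝ) ^ (j + 1) * ((1 / 4) ^ (j + 1) + (1 / 4) ^ j) ≤ 4 * (1 / 2) ^ j := by
      have h1 : (2 : ℝ) ^ (j + 1) * (1 / 4) ^ (j + 1) = (1 / 2) ^ (j + 1) := by
        rw [← mul_pow]; norm_num
      have h2 : (2 : ℝ) ^ (j + 1) * (1 / 4) ^ j = 2 * (1 / 2) ^ j := by
        rw [pow_succ, mul_comm _ (2 : ℝ), mul_assoc, ← mul_pow]; norm_num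
      rw [mul_add, h1, h2, pow_succ]
      have : (0 : ℝ) < (1 / 2) ^ j := by positivity
      linarith
    rw [e1]
    have h4 : (2 : ℝ) ^ (j + 1) * ∫ x, ‖g (j + 1) x‖ ∂m ≤
        2 ^ (j + 1) * ((1 / 4) ^ (j + 1) + (1 / 4) ^ j) :=
      mul_le_mul_of_nonneg_left e2 (by positivity)
    have h5 : mX * (1 / 2) ^ (j + 1) ≤ mX * (1 / 2) ^ j := by
      apply mul_le_mul_of_nonneg_left _ hmX0
      exact pow_le_pow_of_le_one (by norm_num) (by norm_num) (Nat.le_succ j)
    rw [add_mul]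
    linarith
  set R0 : ℝ := ∫ x, r 0 x ∂m with hR0
  have hR00 : 0 ≤ R0 := integral_nonneg fun x => (hrpos 0 x).le
  set Cst : ℝ := R0 + (4 + mX) * 2 + 1 with hCst
  have hCpos : 0 < Cst := by positivity
  obtain ⟨T, hTfd, hT⟩ := hAP K hKc (u / (2 * Cst)) (by positivity)
  set ε : ℝ := u / (2 * Cst) with hε
  have hεpos : 0 < ε := by positivity
  have hTg : ∀ j x, ‖T (g j x) - g j x‖ ≤ ε * r j x := by
    intro j x
    have h1 : T (g j x) - g j x = r j x • (T (v j x) - v j x) := by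
      have h2 : T (g j x) = r j x • T (v j x) := by
        rw [hv j x]
        exact (T.restrictScalars ℝ).map_smul (r j x) (v j x)
      rw [h2]
      conv_lhs => rw [hv j x]
      rw [smul_sub]
    rw [h1, norm_smul, Real.norm_of_nonneg (hrpos j x).le, mul_comm]
    apply mul_le_mul_of_nonneg_right _ (hrpos j x).le
    exact (hT (v j x) (Or.inr (mem_iUnion.2 ⟨j, x, rfl⟩))).le
  let w : ℕ → X → ℝ := fun k x => ‖F (n k) x - T (F (n k) x)‖
  have hwcont : ∀ k, Continuous (w k) := fun k =>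
    ((F (n k)).continuous.sub (T.continuous.comp (F (n k)).continuous)).norm
  have hw : ∀ k, ∫ x, w k x ∂m ≤ ε * (R0 + (4 + mX) * (2 - 2 * (1 / 2) ^ k)) := by
    intro k
    induction k with
    | zero =>
      have h1 : ∫ x, w 0 x ∂m ≤ ∫ x, ε * r 0 x ∂m := by
        apply integral_mono (intCont m (hwcont 0)) ((hrint 0).const_mul _)
        intro x
        have := hTg 0 x
        rw [hg0] at this
        simp only [w]
        rw [norm_sub_rev]
        exact this
      rw [integral_const_mul] at h1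
      simpa using h1
    | succ k ih =>
      have h1 : ∫ x, w (k + 1) x ∂m ≤ ∫ x, (w k x + ε * r (k + 1) x) ∂m := by
        apply integral_mono (intCont m (hwcont (k + 1)))
          ((intCont m (hwcont k)).add ((hrint (k + 1)).const_mul _))
        intro x
        have h2 := hTg (k + 1) x
        rw [hgs] at h2
        simp only [w, ContinuousMap.sub_apply] at h2 ⊢
        have h3 : F (n (k + 1)) x - T (F (n (k + 1)) x) =
            (F (n k) x - T (F (n k) x)) -
            (T (F (n (k + 1)) x - F (n k) x) - (F (n (k + 1)) x - F (n k) x)) := by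
          rw [map_sub]; abel
        rw [h3]
        refine (norm_sub_le _ _).trans ?_
        exact add_le_add le_rfl h2
      rw [integral_add (intCont m (hwcont k)) ((hrint (k + 1)).const_mul _),
        integral_const_mul] at h1
      have h2 := mul_le_mul_of_nonneg_left (hr_int k) hεpos.le
      have h3 : ε * (R0 + (4 + mX) * (2 - 2 * (1 / 2) ^ k)) + ε * ((4 + mX) * (1 / 2) ^ k) =
          ε * (R0 + (4 + mX) * (2 - 2 * (1 / 2) ^ (k + 1))) := by
        rw [pow_succ]; ring
      linarith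
  have hbound : ∀ k, u ≤ Λ ((T : C(E, E)).comp (F (n k))) + u / 2 := by
    intro k
    have h1 := hΛF (n k) (hnN k)
    have h2 := hm (F (n k) - (T : C(E, E)).comp (F (n k)))
    have h3 : ∫ x, ‖(F (n k) - (T : C(E, E)).comp (F (n k))) x‖ ∂m = ∫ x, w k x ∂m := rfl
    rw [h3, map_sub] at h2
    have h4 := hw k
    have h5 : ε * (R0 + (4 + mX) * (2 - 2 * (1 / 2) ^ k)) ≤ u / 2 := by
      have h6 : R0 + (4 + mX) * (2 - 2 * (1 / 2) ^ k) ≤ Cst := by
        have : 0 ≤ (4 + mX) * (2 * (1 / 2) ^ k) := by positivity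
        have e : (4 + mX) * (2 - 2 * (1 / 2 : ℝ) ^ k) = (4 + mX) * 2 - (4 + mX) * (2 * (1 / 2) ^ k) := by
          ring
        rw [e]
        linarith
      have h7 := mul_le_mul_of_nonneg_left h6 hεpos.le
      have h8 : ε * Cst = u / 2 := by
        rw [hε]; field_simp
      linarith
    linarith
  have hlimT := (finite_rank_limit hX hc Λ hΛ0 hf hlim hM T hTfd).comp hntop
  have h1 : Tendsto (fun k => Λ ((T : C(E, E)).comp (F (n k))) + u / 2) atTop (𝓝 (0 + u / 2)) :=
    hlimT.add_const _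
  have h2 := ge_of_tendsto' h1 hbound
  linarith

/-- the approximating affine maps, with norm control -/
theorem exists_affine_seq (hAP : HasAP 𝕜 E) (hX : IsCompact X) (hc : Convex ℝ X) [CompactSpace X]
    {f : X → E} (hf : IsAffine X f) {F : ℕ → C(X, E)}
    (hlim : ∀ x : X, Tendsto (fun n => F n x) atTop (𝓝 (f x)))
    {M : ℝ} (hM : ∀ n x, ‖F n x‖ ≤ M) :
    ∃ a : ℕ → C(X, E), (∀ n, IsAffine X (a n)) ∧ (∀ n x, ‖a n x‖ ≤ M + 1 / ((n : ℝ) + 1)) ∧
      ∀ x, Tendsto (fun n => a n x) atTop (𝓝 (f x)) := by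
  have h := fun N : ℕ => core hAP hX hc hf hlim hM
    (by positivity : (0 : ℝ) < 1 / ((N : ℝ) + 1)) N
  choose g hg a ha hga using h
  have hdist : ∀ n x, ‖g n x - a n x‖ ≤ 1 / ((n : ℝ) + 1) := fun n x =>
    ((g n - a n).norm_coe_le_norm x).trans (hga n).le
  refine ⟨a, ha, ?_, ?_⟩
  · intro n x
    have h1 : ‖g n x‖ ≤ M := by
      let s : Set C(X, E) := {g | ‖g x‖ ≤ M}
      have hs : Convex ℝ s := by
        intro p hp q hq α β hα hβ hαβ
        change ‖(α • p + β • q) x‖ ≤ M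
        rw [ContinuousMap.add_apply, ContinuousMap.smul_apply, ContinuousMap.smul_apply]
        refine (norm_add_le _ _).trans ?_
        rw [norm_smul, norm_smul, Real.norm_of_nonneg hα, Real.norm_of_nonneg hβ]
        have h1 := mul_le_mul_of_nonneg_left hp hα
        have h2 := mul_le_mul_of_nonneg_left hq hβ
        have h3 : α * M + β * M = M := by rw [← add_mul, hαβ, one_mul]
        linarith
      have hsub : F '' {k | n ≤ k} ⊆ s := by
        rintro _ ⟨k, _, rfl⟩
        exact hM k x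
      exact convexHull_min hsub hs (hg n)
    have h2 : a n x = g n x - (g n x - a n x) := by abel
    rw [h2]
    exact (norm_sub_le _ _).trans (add_le_add h1 (hdist n x))
  · intro x
    have h1 : Tendsto (fun n => g n x) atTop (𝓝 (f x)) := by
      rw [Metric.tendsto_atTop]
      intro η hη
      obtain ⟨N, hN⟩ := Metric.tendsto_atTop.1 (hlim x) (η / 2) (by positivity)
      refine ⟨N, fun n hn => ?_⟩
      let s : Set C(X, E) := {g | g x ∈ Metric.closedBall (f x) (η / 2)}
      have hs : Convex ℝ s := by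
        intro p hp q hq α β hα hβ hαβ
        exact convex_closedBall (f x) (η / 2) hp hq hα hβ hαβ
      have hsub : F '' {k | n ≤ k} ⊆ s := by
        rintro _ ⟨k, hk, rfl⟩
        exact (hN k (hn.trans hk)).le
      have h2 : g n ∈ s := convexHull_min hsub hs (hg n)
      have h3 : dist (g n x) (f x) ≤ η / 2 := h2
      linarith
    have h2 : Tendsto (fun n => g n x - a n x) atTop (𝓝 0) := by
      apply squeeze_zero_norm (fun n => hdist n x)
      exact tendsto_one_div_add_atTop_nhds_zero_nat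
    have h3 := h1.sub h2
    rw [sub_zero] at h3
    refine h3.congr fun n => ?_
    abel

/-- norm control in a ball of positive radius -/
theorem exists_affine_seq_ball (hAP : HasAP 𝕜 E) (hX : IsCompact X) (hc : Convex ℝ X)
    [CompactSpace X]
    {f : X → E} (hf : IsAffine X f) {F : ℕ → C(X, E)}
    (hlim : ∀ x : X, Tendsto (fun n => F n x) atTop (𝓝 (f x)))
    (hM : ∀ n x, ‖F n x‖ ≤ 1) :
    ∃ a : ℕ → C(X, E), (∀ n, IsAffine X (a n)) ∧ (∀ n x, ‖a n x‖ ≤ 1) ∧
      ∀ x, Tendsto (fun n => a n x) atTop (𝓝 (f x)) := by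
  obtain ⟨a, ha, hn, hl⟩ := exists_affine_seq hAP hX hc hf hlim hM
  refine ⟨fun n => (1 + 1 / ((n : ℝ) + 1))⁻¹ • a n, ?_, ?_, ?_⟩
  · intro n x y z t h0 h1 hz
    simp only [ContinuousMap.smul_apply]
    rw [ha n x y z t h0 h1 hz, smul_add, smul_comm t, smul_comm (1 - t)]
  · intro n x
    have hpos : (0 : ℝ) < 1 + 1 / ((n : ℝ) + 1) := by positivity
    rw [ContinuousMap.smul_apply, norm_smul, norm_inv, Real.norm_of_nonneg hpos.le,
      inv_mul_le_iff₀ hpos, mul_one]
    exact hn n x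
  · intro x
    have h1 : Tendsto (fun n : ℕ => (1 + 1 / ((n : ℝ) + 1))⁻¹) atTop (𝓝 (1 + 0 : ℝ)⁻¹) :=
      (tendsto_one_div_add_atTop_nhds_zero_nat.const_add 1).inv₀ (by norm_num)
    have h2 := h1.smul (hl x)
    rw [add_zero, inv_one, one_smul] at h2
    exact h2

/-- an affine pointwise limit of continuous maps on a compact convex set is bounded -/
theorem bounded_of_baireOne (hX : IsCompact X) (hc : Convex ℝ X) [CompactSpace X]
    {f : X → E} (hf : IsAffine X f) {F : ℕ → C(X, E)}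
    (hlim : ∀ x : X, Tendsto (fun n => F n x) atTop (𝓝 (f x))) :
    ∃ M : ℝ, ∀ x, ‖f x‖ ≤ M := by
  rcases isEmpty_or_nonempty X with hemp | hne
  · exact ⟨0, fun x => (hemp.false x).elim⟩
  let A : ℕ → Set X := fun m => {x | ∀ n, ‖F n x‖ ≤ m}
  have hA : ∀ m, IsClosed (A m) := by
    intro m
    have : A m = ⋂ n, {x | ‖F n x‖ ≤ m} := by ext x; simp [A]
    rw [this]
    exact isClosed_iInter fun n => isClosed_le (F n).continuous.norm continuous_const
  have hU : ⋃ m, A m = univ := by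
    apply eq_univ_of_forall
    intro x
    obtain ⟨b, hb⟩ := (hlim x).norm.bddAbove_range
    obtain ⟨m, hm⟩ := exists_nat_ge b
    exact mem_iUnion.2 ⟨m, fun n => (hb ⟨n, rfl⟩).trans hm⟩
  obtain ⟨m, x0, hx0⟩ := nonempty_interior_of_iUnion_of_closed hA hU
  obtain ⟨W, hWo, hWA⟩ := isOpen_induced_iff.1 (isOpen_interior (s := A m))
  have hx0W : (x0 : V) ∈ W := by
    have : x0 ∈ Subtype.val ⁻¹' W := by rw [hWA]; exact hx0
    exact this
  have hev : ∀ᶠ t : ℝ in 𝓝 0, ∀ y ∈ X, t • y + (1 - t) • (x0 : V) ∈ W := by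
    apply hX.eventually_forall_of_forall_eventually
    intro y _
    have hcont : Continuous (fun z : ℝ × V => z.1 • z.2 + (1 - z.1) • (x0 : V)) := by fun_prop
    have h0 : (fun z : ℝ × V => z.1 • z.2 + (1 - z.1) • (x0 : V)) (0, y) ∈ W := by
      simpa using hx0W
    exact hcont.continuousAt.preimage_mem_nhds (hWo.mem_nhds h0)
  have hev2 : ∀ᶠ t : ℝ in 𝓝[>] 0, (∀ y ∈ X, t • y + (1 - t) • (x0 : V) ∈ W) ∧ t ∈ Ioc (0 : ℝ) 1 :=
    (hev.filter_mono nhdsWithin_le_nhds).and (Ioc_mem_nhdsGT one_pos)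
  obtain ⟨t, ht, ht0, ht1⟩ := hev2.exists
  refine ⟨(m + ‖f x0‖) / t, fun x => ?_⟩
  have hzX : t • (x : V) + (1 - t) • (x0 : V) ∈ X :=
    hc x.2 x0.2 ht0.le (by linarith) (by ring)
  have hzA : (⟨_, hzX⟩ : X) ∈ A m := by
    apply interior_subset
    rw [← hWA]
    exact ht x x.2
  have hfz : ‖f ⟨_, hzX⟩‖ ≤ m := le_of_tendsto' (hlim _).norm (fun n => hzA n)
  have h1 := hf x x0 ⟨_, hzX⟩ t ht0.le ht1 rfl
  have h2 : t • f x = f ⟨_, hzX⟩ - (1 - t) • f x0 := by rw [h1]; abel
  have h3 : t * ‖f x‖ ≤ m + ‖f x0‖ := by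
    calc t * ‖f x‖ = ‖t • f x‖ := by rw [norm_smul, Real.norm_of_nonneg ht0.le]
      _ = ‖f ⟨_, hzX⟩ - (1 - t) • f x0‖ := by rw [h2]
      _ ≤ ‖f ⟨_, hzX⟩‖ + ‖(1 - t) • f x0‖ := norm_sub_le _ _
      _ ≤ m + ‖f x0‖ := by
        apply add_le_add hfz
        rw [norm_smul, Real.norm_of_nonneg (by linarith)]
        have := norm_nonneg (f x0)
        nlinarith
  rw [le_div_iff₀ ht0, mul_comm]
  exact h3

/-- radial truncation -/
theorem exists_truncation {f : X → E} {F : ℕ → C(X, E)}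
    (hlim : ∀ x : X, Tendsto (fun n => F n x) atTop (𝓝 (f x)))
    {M : ℝ} (hM0 : 0 < M) (hM : ∀ x, ‖f x‖ ≤ M) :
    ∃ G : ℕ → C(X, E), (∀ n x, ‖G n x‖ ≤ M) ∧
      ∀ x : X, Tendsto (fun n => G n x) atTop (𝓝 (f x)) := by
  let ρ : E → E := fun y => (M / max M ‖y‖) • y
  have hmax : ∀ y : E, 0 < max M ‖y‖ := fun y => lt_of_lt_of_le hM0 (le_max_left _ _)
  have hρ : Continuous ρ :=
    (continuous_const.div (continuous_const.max continuous_norm) (fun y => (hmax y).ne')).smul
      continuous_id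
  refine ⟨fun n => ⟨fun x => ρ (F n x), hρ.comp (F n).continuous⟩, ?_, ?_⟩
  · intro n x
    simp only [ContinuousMap.coe_mk, ρ, norm_smul]
    rw [Real.norm_of_nonneg (div_nonneg hM0.le (hmax _).le), div_mul_eq_mul_div,
      div_le_iff₀ (hmax _)]
    exact mul_le_mul_of_nonneg_left (le_max_right _ _) hM0.le
  · intro x
    have h1 := (hρ.tendsto (f x)).comp (hlim x)
    have h2 : ρ (f x) = f x := by
      simp only [ρ]
      rw [max_eq_left (hM x), div_self hM0.ne', one_smul]
    rw [h2] at h1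
    exact h1

end Pool.Agent.R884.AffB
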