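import Pool.Agent.R884.AffB.Abs
import Pool.Agent.R884.AffB.Bary

/-!
The barycentric formula for bounded affine Baire-one functions, and its consequence for
functionals on `C(X)` vanishing on the continuous affine functions.
-/

namespace Pool.Agent.R884.AffB

open MeasureTheory Set Filter Topology
open scoped NNReal ENNReal

variable {V : Type*} [AddCommGroup V] [Module ℝ V] [TopologicalSpace V]
  [IsTopologicalAddGroup V] [ContinuousSMul ℝ V] [LocallyConvexSpace ℝ V] [T2Space V]
variable {X : Set V}

theorem bary_formula (hX : IsCompact X) (hc : Convex ℝ X) [MeasurableSpace X] [BorelSpace X]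
    (μ : Measure X) [IsFiniteMeasure μ] [μ.InnerRegularCompactLTTop]
    {φ : V → ℝ} (haff : AffOn X φ) {F : ℕ → X → ℝ} (hF : ∀ n, Continuous (F n))
    (hlim : ∀ x : X, Tendsto (fun n => F n x) atTop (𝓝 (φ x)))
    {M : ℝ} (hM : ∀ x : X, |φ x| ≤ M) {r : V} (hrX : r ∈ X)
    (hr : ∀ ℓ : V →L[ℝ] ℝ, ∫ x : X, ℓ x ∂μ = μ.real univ * ℓ r) :
    ∫ x : X, φ x ∂μ = μ.real univ * φ r := by
  haveI : CompactSpace X := isCompact_iff_compactSpace.1 hX
  have hmeas : Measurable (fun x : X => φ x) :=
    measurable_of_tendsto_metrizable (f := fun n (x : X) => F n x) (fun n => (hF n).measurable)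
      (tendsto_pi_nhds.2 fun x => hlim x)
  have hint : Integrable (fun x : X => φ x) μ :=
    Integrable.of_bound hmeas.aestronglyMeasurable M (Eventually.of_forall fun x => hM x)
  have hRex : ∀ B : Set X, ∃ v ∈ X, ∀ ℓ : V →L[ℝ] ℝ,
      ∫ x in B, ℓ (x : V) ∂μ = μ.real B * ℓ v := by
    intro B
    by_cases h0 : μ.restrict B = 0
    · refine ⟨r, hrX, fun ℓ => ?_⟩
      have : μ B = 0 := Measure.restrict_eq_zero.1 h0
      rw [h0, integral_zero_measure, measureReal_def, this]
      simp
    · obtain ⟨v, hv, hv2⟩ := exists_bary hX hc (μ.restrict B) h0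
      refine ⟨v, hv, fun ℓ => ?_⟩
      rw [hv2 ℓ, measureReal_restrict_apply_univ]
  choose R hRX hR using hRex
  set e : Set X → ℝ := fun B => μ.real B * φ (R B) - ∫ x in B, φ (x : V) ∂μ with he
  have hM0 : 0 ≤ M := (abs_nonneg _).trans (hM ⟨r, hrX⟩)
  -- crude bound
  have hcrude : ∀ B : Set X, |e B| ≤ 2 * M * μ.real B := by
    intro B
    have h1 : |∫ x in B, φ (x : V) ∂μ| ≤ M * μ.real B := by
      have := norm_integral_le_of_norm_le_const (μ := μ.restrict B) (f := fun x : X => φ x) (C := M)
        (Eventually.of_forall fun x => hM x)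
      rwa [measureReal_restrict_apply_univ] at this
    have h2 : |μ.real B * φ (R B)| ≤ M * μ.real B := by
      rw [abs_mul, abs_of_nonneg measureReal_nonneg, mul_comm]
      exact mul_le_mul_of_nonneg_right (hM ⟨R B, hRX B⟩) measureReal_nonneg
    have h3 := abs_sub (μ.real B * φ (R B)) (∫ x in B, φ (x : V) ∂μ)
    simp only [he]
    linarith
  -- additivity
  have hadd : ∀ A B : Set X, MeasurableSet A → MeasurableSet B → Disjoint A B →
      e (A ∪ B) = e A + e B := by
    intro A B hA hB hAB
    have hm : μ.real (A ∪ B) = μ.real A + μ.real B := measureReal_union hAB hB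
    have hI : ∫ x in A ∪ B, φ (x : V) ∂μ = ∫ x in A, φ (x : V) ∂μ + ∫ x in B, φ (x : V) ∂μ :=
      setIntegral_union hAB hB hint.integrableOn hint.integrableOn
    have hv : (μ.real A + μ.real B) • R (A ∪ B) = μ.real A • R A + μ.real B • R B := by
      apply ext_functional
      intro ℓ
      have hl : Integrable (fun x : X => ℓ x) μ :=
        intCont μ (ℓ.continuous.comp continuous_subtype_val)
      have hI2 : ∫ x in A ∪ B, ℓ (x : V) ∂μ = ∫ x in A, ℓ (x : V) ∂μ + ∫ x in B, ℓ (x : V) ∂μ :=
        setIntegral_union hAB hB hl.integrableOn hl.integrableOn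
      rw [hR, hR, hR, hm] at hI2
      simp only [map_add, map_smul, smul_eq_mul]
      exact hI2
    have hA0 : 0 ≤ μ.real A := measureReal_nonneg
    have hB0 : 0 ≤ μ.real B := measureReal_nonneg
    rcases eq_or_lt_of_le (add_nonneg hA0 hB0) with h0 | hpos
    · have hA1 : μ.real A = 0 := by linarith
      have hB1 : μ.real B = 0 := by linarith
      have e1 := hcrude A
      have e2 := hcrude B
      have e3 := hcrude (A ∪ B)
      rw [hA1, mul_zero] at e1
      rw [hB1, mul_zero] at e2
      rw [hm, hA1, hB1, add_zero, mul_zero] at e3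
      rw [abs_nonpos_iff.1 e1, abs_nonpos_iff.1 e2, abs_nonpos_iff.1 e3, add_zero]
    · have hv2 : R (A ∪ B) = (μ.real A / (μ.real A + μ.real B)) • R A +
          (μ.real B / (μ.real A + μ.real B)) • R B := by
        have := congrArg (fun v => (μ.real A + μ.real B)⁻¹ • v) hv
        simp only [smul_add, smul_smul, inv_mul_cancel₀ hpos.ne', one_smul] at this
        rw [this, div_eq_inv_mul, div_eq_inv_mul]
      have hφ : φ (R (A ∪ B)) = (μ.real A / (μ.real A + μ.real B)) * φ (R A) +
          (μ.real B / (μ.real A + μ.real B)) * φ (R B) := by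
        rw [hv2]
        apply haff _ (hRX A) _ (hRX B) _ _ (by positivity) (by positivity)
        rw [← add_div, div_self hpos.ne']
      simp only [he]
      rw [hm, hI, hφ]
      field_simp
      ring
  -- main estimate
  have hmain : ∀ δ : ℝ, 0 < δ → |e univ| ≤ δ * μ.real univ := by
    intro δ hδ
    have hgreedy : ∀ G : Set X, ∃ C : Set X, MeasurableSet C ∧ C ⊆ Gᶜ ∧ |e C| ≤ δ * μ.real C ∧
        ∀ C' : Set X, MeasurableSet C' → C' ⊆ Gᶜ → |e C'| ≤ δ * μ.real C' →
          μ.real C' ≤ 2 * μ.real C := by
      intro G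
      let T : Set ℝ := {t | ∃ C : Set X, MeasurableSet C ∧ C ⊆ Gᶜ ∧ |e C| ≤ δ * μ.real C ∧
        μ.real C = t}
      have hT0 : (0 : ℝ) ∈ T := by
        refine ⟨∅, MeasurableSet.empty, empty_subset _, ?_, by simp⟩
        have := hcrude ∅
        simpa using this
      have hTb : BddAbove T := by
        refine ⟨μ.real univ, ?_⟩
        rintro _ ⟨C, _, _, _, rfl⟩
        exact measureReal_mono (subset_univ _)
      rcases le_or_gt (sSup T) 0 with hs | hs
      · refine ⟨∅, MeasurableSet.empty, empty_subset _, ?_, ?_⟩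
        · have := hcrude ∅
          simpa using this
        · intro C' h1 h2 h3
          have := le_csSup hTb ⟨C', h1, h2, h3, rfl⟩
          simp only [measureReal_empty, mul_zero]
          linarith
      · obtain ⟨_, ⟨C, h1, h2, h3, rfl⟩, hC⟩ := exists_lt_of_lt_csSup ⟨0, hT0⟩
          (show sSup T / 2 < sSup T by linarith)
        refine ⟨C, h1, h2, h3, ?_⟩
        intro C' h1' h2' h3'
        have := le_csSup hTb ⟨C', h1', h2', h3', rfl⟩
        linarith
    choose C hCm hCsub hCgood hCmax using hgreedy
    let G : ℕ → Set X := fun n => Nat.rec ∅ (fun _ G => G ∪ C G) n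
    have hG0 : G 0 = ∅ := rfl
    have hGs : ∀ n, G (n + 1) = G n ∪ C (G n) := fun n => rfl
    have hGm : ∀ n, MeasurableSet (G n) := by
      intro n
      induction n with
      | zero => exact MeasurableSet.empty
      | succ n ih => rw [hGs]; exact ih.union (hCm _)
    have hdisj : ∀ n, Disjoint (G n) (C (G n)) := fun n =>
      (disjoint_compl_right (a := G n)).mono_right (hCsub _)
    have hGgood : ∀ n, |e (G n)| ≤ δ * μ.real (G n) := by
      intro n
      induction n with
      | zero =>
        rw [hG0]
        have := hcrude ∅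
        simpa using this
      | succ n ih =>
        rw [hGs, hadd _ _ (hGm n) (hCm _) (hdisj n), measureReal_union (hdisj n) (hCm _)]
        have := abs_add_le (e (G n)) (e (C (G n)))
        have := hCgood (G n)
        linarith
    have hmono : Monotone G := by
      apply monotone_nat_of_le_succ
      intro n
      rw [hGs]
      exact subset_union_left
    have hlimC : Tendsto (fun n => μ.real (C (G n))) atTop (𝓝 0) := by
      have h1 : ∀ n, μ.real (C (G n)) = μ.real (G (n + 1)) - μ.real (G n) := by
        intro n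
        rw [hGs, measureReal_union (hdisj n) (hCm _)]
        ring
      have h2 : Tendsto (fun n => μ.real (G n)) atTop (𝓝 (⨆ n, μ.real (G n))) := by
        apply tendsto_atTop_ciSup
        · intro a b hab
          exact measureReal_mono (hmono hab)
        · refine ⟨μ.real univ, ?_⟩
          rintro _ ⟨n, rfl⟩
          exact measureReal_mono (subset_univ _)
      have h3 := (h2.comp (tendsto_add_atTop_nat 1)).sub h2
      rw [sub_self] at h3
      refine h3.congr fun n => ?_
      rw [h1]
      rfl
    have hrest : μ (⋃ n, G n)ᶜ = 0 := by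
      by_contra hne
      obtain ⟨D, hD1, hD2, hD3, hD4⟩ := local_step hX hc μ haff hF hlim
        (MeasurableSet.iUnion hGm).compl hne hδ
      have hDgood : |e D| ≤ δ * μ.real D := by
        have h1 : e D = ∫ x in D, (φ (R D) - φ (x : V)) ∂μ := by
          rw [integral_sub (integrable_const _) hint.integrableOn, integral_const,
            measureReal_restrict_apply_univ, smul_eq_mul]
        rw [h1]
        have := norm_integral_le_of_norm_le_const (μ := μ.restrict D)
          (f := fun x : X => φ (R D) - φ x) (C := δ) ?_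
        · rwa [measureReal_restrict_apply_univ] at this
        · rw [ae_restrict_iff' hD2]
          exact Eventually.of_forall fun x hx => hD4 (R D) (hR D) x hx
      have hDpos : 0 < μ.real D := by
        rw [measureReal_def, ENNReal.toReal_pos_iff]
        exact ⟨pos_iff_ne_zero.2 hD3, measure_lt_top μ _⟩
      have h1 : ∀ n, μ.real D ≤ 2 * μ.real (C (G n)) := by
        intro n
        apply hCmax (G n) D hD2 _ hDgood
        exact hD1.trans (compl_subset_compl.2 (subset_iUnion _ n))
      have h2 : Tendsto (fun n => 2 * μ.real (C (G n))) atTop (𝓝 (2 * 0)) := hlimC.const_mul 2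
      have h3 := ge_of_tendsto' h2 h1
      linarith
    have hGu : Tendsto (fun n => μ.real (G n)ᶜ) atTop (𝓝 0) := by
      have h1 : Tendsto (fun n => μ (G n)ᶜ) atTop (𝓝 (μ (⋂ n, (G n)ᶜ))) := by
        apply tendsto_measure_iInter_atTop
        · intro n; exact (hGm n).compl.nullMeasurableSet
        · intro a b hab; exact compl_subset_compl.2 (hmono hab)
        · exact ⟨0, measure_ne_top μ _⟩
      rw [← compl_iUnion, hrest] at h1
      have h2 := (ENNReal.tendsto_toReal (ENNReal.zero_ne_top)).comp h1
      rw [ENNReal.toReal_zero] at h2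
      exact h2
    have h1 : ∀ n, |e univ| ≤ δ * μ.real univ + 2 * M * μ.real (G n)ᶜ := by
      intro n
      have h2 : e univ = e (G n) + e (G n)ᶜ := by
        rw [← hadd _ _ (hGm n) (hGm n).compl disjoint_compl_right, union_compl_self]
      have h3 := abs_add_le (e (G n)) (e (G n)ᶜ)
      have h4 := hGgood n
      have h5 := hcrude (G n)ᶜ
      have h6 : δ * μ.real (G n) ≤ δ * μ.real univ :=
        mul_le_mul_of_nonneg_left (measureReal_mono (subset_univ _)) hδ.le
      rw [h2]
      linarith
    have h2 : Tendsto (fun n => δ * μ.real univ + 2 * M * μ.real (G n)ᶜ) atTop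
        (𝓝 (δ * μ.real univ + 2 * M * 0)) := (hGu.const_mul _).const_add _
    rw [mul_zero, add_zero] at h2
    exact ge_of_tendsto' h2 h1
  have he0 : e univ = 0 := by
    rw [← abs_nonpos_iff]
    refine le_of_forall_pos_le_add ?_
    intro ε hε
    have hpos : 0 < μ.real (univ : Set X) + 1 := by
      have : 0 ≤ μ.real (univ : Set X) := measureReal_nonneg
      linarith
    have := hmain (ε / (μ.real univ + 1)) (by positivity)
    have h2 : ε / (μ.real univ + 1) * μ.real (univ : Set X) ≤ ε := by
      rw [div_mul_eq_mul_div, div_le_iff₀ hpos]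
      nlinarith
    linarith
  have h1 : μ.real univ * φ (R univ) = μ.real univ * φ r := by
    by_cases h0 : μ.real (univ : Set X) = 0
    · rw [h0]; simp
    · congr 2
      apply ext_functional
      intro ℓ
      have h2 := hR univ ℓ
      rw [Measure.restrict_univ, hr ℓ] at h2
      exact (mul_left_cancel₀ h0 h2).symm
  have h2 : μ.real univ * φ (R univ) - ∫ x in (univ : Set X), φ (x : V) ∂μ = 0 := he0
  rw [Measure.restrict_univ] at h2
  linarith

/-- `f : X → E` is affine on the convex set `X`. -/
def IsAffine {E : Type*} [AddCommGroup E] [Module ℝ E] (X : Set V) (f : X → E) : Prop :=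
  ∀ x y z : X, ∀ t : ℝ, 0 ≤ t → t ≤ 1 →
    (z : V) = t • (x : V) + (1 - t) • (y : V) → f z = t • f x + (1 - t) • f y

theorem scalar_claim (hX : IsCompact X) (hc : Convex ℝ X) [CompactSpace X]
    (ν : C(X, ℝ) →L[ℝ] ℝ) (hν : ∀ a : C(X, ℝ), IsAffine X a → ν a = 0)
    {φ : X → ℝ} (haff : IsAffine X φ) {F : ℕ → C(X, ℝ)}
    (hlim : ∀ x : X, Tendsto (fun n => F n x) atTop (𝓝 (φ x)))
    {M : ℝ} (hM : ∀ n x, |F n x| ≤ M) : Tendsto (fun n => ν (F n)) atTop (𝓝 0) := by
  letI : MeasurableSpace X := borel X
  haveI : BorelSpace X := ⟨rfl⟩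
  classical
  obtain ⟨μ₁, μ₂, hr1, hf1, hr2, hf2, hμ⟩ := exists_jordan ν
  -- extension of `φ`
  let ψ : V → ℝ := fun v => if h : v ∈ X then φ ⟨v, h⟩ else 0
  have hψ : ∀ x : X, ψ x = φ x := fun x => by
    simp only [ψ, dif_pos x.2]
  have hψaff : AffOn X ψ := by
    intro x hx y hy a b ha hb hab
    have hz : a • x + b • y ∈ X := hc hx hy ha hb hab
    have h := haff ⟨x, hx⟩ ⟨y, hy⟩ ⟨_, hz⟩ a ha (by linarith)
      (by rw [show (1 : ℝ) - a = b by linarith])
    simp only [ψ, dif_pos hx, dif_pos hy, dif_pos hz]
    rw [h, show (1 : ℝ) - a = b by linarith, smul_eq_mul, smul_eq_mul]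
  have hψM : ∀ x : X, |ψ x| ≤ M := by
    intro x
    rw [hψ]
    exact le_of_tendsto' (hlim x).abs (fun n => hM n x)
  have hψlim : ∀ x : X, Tendsto (fun n => F n x) atTop (𝓝 (ψ x)) := fun x => by
    rw [hψ]; exact hlim x
  -- convergence of the integrals
  have hDC : ∀ (μ : Measure X) [IsFiniteMeasure μ],
      Tendsto (fun n => ∫ x, F n x ∂μ) atTop (𝓝 (∫ x : X, ψ x ∂μ)) := by
    intro μ _
    apply tendsto_integral_of_dominated_convergence (fun _ => M)
    · intro n
      exact (F n).continuous.aestronglyMeasurable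
    · exact integrable_const _
    · intro n
      exact Eventually.of_forall fun x => hM n x
    · exact Eventually.of_forall fun x => hψlim x
  have haffeq : ∀ a : C(X, ℝ), IsAffine X a → ∫ x, a x ∂μ₁ = ∫ x, a x ∂μ₂ := by
    intro a ha
    have := hμ a
    rw [hν a ha] at this
    linarith
  have hmass : μ₁.real univ = μ₂.real univ := by
    have h := haffeq (ContinuousMap.const X 1) (fun x y z t _ _ _ => by simp)
    simpa using h
  have hkey : ∫ x : X, ψ x ∂μ₁ = ∫ x : X, ψ x ∂μ₂ := by
    by_cases h0 : μ₁ = 0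
    · have h2 : μ₂ = 0 := by
        rw [h0] at hmass
        simp only [measureReal_zero, Pi.zero_apply] at hmass
        rw [← Measure.measure_univ_eq_zero]
        have h3 : μ₂.real univ = 0 := hmass.symm
        rw [measureReal_def, ENNReal.toReal_eq_zero_iff] at h3
        exact h3.resolve_right (measure_ne_top _ _)
      rw [h0, h2]
    · have h02 : μ₂ ≠ 0 := by
        intro h2
        apply h0
        rw [h2] at hmass
        simp only [measureReal_zero, Pi.zero_apply] at hmass
        rw [← Measure.measure_univ_eq_zero]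
        rw [measureReal_def, ENNReal.toReal_eq_zero_iff] at hmass
        exact hmass.resolve_right (measure_ne_top _ _)
      obtain ⟨r₁, hr₁, hb₁⟩ := exists_bary hX hc μ₁ h0
      obtain ⟨r₂, hr₂, hb₂⟩ := exists_bary hX hc μ₂ h02
      have hpos : μ₁.real univ ≠ 0 := by
        intro h
        rw [measureReal_def, ENNReal.toReal_eq_zero_iff] at h
        exact h0 (Measure.measure_univ_eq_zero.1 (h.resolve_right (measure_ne_top _ _)))
      have hrr : r₁ = r₂ := by
        apply ext_functional
        intro ℓ
        have h1 := haffeq ⟨fun x : X => ℓ x, ℓ.continuous.comp continuous_subtype_val⟩ (by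
          intro x y z t _ _ hz
          simp only [ContinuousMap.coe_mk]
          rw [hz, map_add, map_smul, map_smul])
        have h2 : ∫ x : X, ℓ x ∂μ₁ = ∫ x : X, ℓ x ∂μ₂ := h1
        rw [hb₁ ℓ, hb₂ ℓ, ← hmass] at h2
        exact mul_left_cancel₀ hpos h2
      rw [bary_formula hX hc μ₁ hψaff (fun n => (F n).continuous) hψlim hψM hr₁ hb₁,
        bary_formula hX hc μ₂ hψaff (fun n => (F n).continuous) hψlim hψM hr₂ hb₂, hmass, hrr]
  have h1 := (hDC μ₁).sub (hDC μ₂)
  rw [hkey, sub_self] at h1
  refine h1.congr fun n => ?_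
  rw [hμ (F n)]

end Pool.Agent.R884.AffB
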