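import Pool.Agent.R884.AffB.Core

/-!
Affine maps of the first Baire class into normed spaces with the approximation property.
-/

namespace Pool.Agent.R884.AffB

open Set Filter Topology

variable {V : Type*} [AddCommGroup V] [Module ℝ V] [TopologicalSpace V]
variable {E : Type*} [NormedAddCommGroup E] [NormedSpace ℝ E]

/-- `f ∈ C₁(X,L)`: `f : X → E` has values in `L` and is the pointwise limit (in norm) of a
sequence of continuous maps `X → E` with values in `L`. -/
def IsBaireOne (X : Set V) (L : Set E) (f : X → E) : Prop :=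
  (∀ x, f x ∈ L) ∧ ∃ F : ℕ → X → E, (∀ n, Continuous (F n)) ∧ (∀ n x, F n x ∈ L) ∧
    ∀ x, Tendsto (fun n => F n x) atTop (𝓝 (f x))

/-- `f ∈ 𝔄₁(X,L)`: `f : X → E` has values in `L` and is the pointwise limit (in norm) of a
sequence of continuous affine maps `X → E` with values in `L`. -/
def IsAffineOne (X : Set V) (L : Set E) (f : X → E) : Prop :=
  (∀ x, f x ∈ L) ∧ ∃ F : ℕ → X → E, (∀ n, Continuous (F n)) ∧ (∀ n, IsAffine X (F n)) ∧
    (∀ n x, F n x ∈ L) ∧ ∀ x, Tendsto (fun n => F n x) atTop (𝓝 (f x))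

variable [IsTopologicalAddGroup V] [ContinuousSMul ℝ V] [LocallyConvexSpace ℝ V] [T2Space V]
variable {𝕜 : Type*} [RCLike 𝕜] [NormedSpace 𝕜 E] [IsScalarTower ℝ 𝕜 E]

theorem main_univ (hAP : HasAP 𝕜 E) (X : Set V) (hX : IsCompact X) (hc : Convex ℝ X)
    (f : X → E) (hf : IsAffine X f) (h1 : IsBaireOne X univ f) : IsAffineOne X univ f := by
  haveI : CompactSpace X := isCompact_iff_compactSpace.1 hX
  obtain ⟨_, F, hFc, _, hlim⟩ := h1
  let F' : ℕ → C(X, E) := fun n => ⟨F n, hFc n⟩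
  have hlim' : ∀ x : X, Tendsto (fun n => F' n x) atTop (𝓝 (f x)) := hlim
  obtain ⟨M, hM⟩ := bounded_of_baireOne hX hc hf hlim'
  obtain ⟨G, hGM, hG⟩ := exists_truncation hlim' (M := max M 1)
    (lt_of_lt_of_le one_pos (le_max_right _ _)) (fun x => (hM x).trans (le_max_left _ _))
  obtain ⟨a, ha, _, hal⟩ := exists_affine_seq hAP hX hc hf hG hGM
  exact ⟨fun _ => mem_univ _, fun n => a n, fun n => (a n).continuous, ha,
    fun _ _ => mem_univ _, hal⟩

theorem main_ball (hAP : HasAP 𝕜 E) (X : Set V) (hX : IsCompact X) (hc : Convex ℝ X)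
    (f : X → E) (hf : IsAffine X f) (h1 : IsBaireOne X {y : E | ‖y‖ ≤ 1} f) :
    IsAffineOne X {y : E | ‖y‖ ≤ 1} f := by
  haveI : CompactSpace X := isCompact_iff_compactSpace.1 hX
  obtain ⟨hfL, F, hFc, hFL, hlim⟩ := h1
  let F' : ℕ → C(X, E) := fun n => ⟨F n, hFc n⟩
  have hlim' : ∀ x : X, Tendsto (fun n => F' n x) atTop (𝓝 (f x)) := hlim
  obtain ⟨a, ha, han, hal⟩ := exists_affine_seq_ball hAP hX hc hf hlim' (fun n x => hFL n x)
  exact ⟨hfL, fun n => a n, fun n => (a n).continuous, ha, fun n x => han n x, hal⟩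

end Pool.Agent.R884.AffB
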